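import Pool.Agent.H29.FX.Targets

/-!
# Row SUN of the board tfx (MP_7ecdd4_nt): integers composed of few primes
-/

set_option autoImplicit false

open Finset
open Pool.Agent.H29.FX

namespace Pool.Agent.H57.TFX

/-- the completely multiplicative function `m ^ (-t)` -/
noncomputable def sunF (t : ℝ) (_ : 0 < t) : ℕ →* ℝ where
  toFun m := (m : ℝ) ^ (-t)
  map_one' := by
    rw [Nat.cast_one, Real.one_rpow]
  map_mul' m n := by
    rw [Nat.cast_mul, Real.mul_rpow (Nat.cast_nonneg m) (Nat.cast_nonneg n)]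

theorem sunF_apply (t : ℝ) (ht : 0 < t) (m : ℕ) : sunF t ht m = (m : ℝ) ^ (-t) := rfl

/-- one factor -/
theorem sun_factor (t : ℝ) (ht : 0 < t) (p : ℕ) (hp : p.Prime) :
    (1 - (p : ℝ) ^ (-t))⁻¹ ≤
      (if p < ⌈(2 : ℝ) ^ (1 / t)⌉₊ then (1 - (2 : ℝ) ^ (-t))⁻¹ else 1) * (p : ℝ) ^ t := by
  have hp2 : (2 : ℝ) ≤ p := by exact_mod_cast hp.two_le
  have hp0 : (0 : ℝ) < p := by linarith
  have h2t : (2 : ℝ) ^ (-t) < 1 := Real.rpow_lt_one_of_one_lt_of_neg (by norm_num) (by linarith)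
  have hle : (p : ℝ) ^ (-t) ≤ (2 : ℝ) ^ (-t) :=
    Real.rpow_le_rpow_of_nonpos (by norm_num) hp2 (by linarith)
  have h1 : 1 ≤ (p : ℝ) ^ t := Real.one_le_rpow (by linarith) ht.le
  split_ifs with h
  · have h3 : (1 - (p : ℝ) ^ (-t))⁻¹ ≤ (1 - (2 : ℝ) ^ (-t))⁻¹ :=
      inv_anti₀ (by linarith) (by linarith)
    have h4 : 0 < (1 - (2 : ℝ) ^ (-t))⁻¹ := inv_pos.mpr (by linarith)
    nlinarith
  · push Not at h
    have h3 : (2 : ℝ) ^ (1 / t) ≤ p := le_trans (Nat.le_ceil _) (by exact_mod_cast h)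
    have h4 : (2 : ℝ) ≤ (p : ℝ) ^ t := by
      have h5 := Real.rpow_le_rpow (by positivity) h3 ht.le
      rw [← Real.rpow_mul (by norm_num), one_div_mul_cancel ht.ne', Real.rpow_one] at h5
      exact h5
    have h5 : (p : ℝ) ^ (-t) = ((p : ℝ) ^ t)⁻¹ := Real.rpow_neg hp0.le t
    rw [h5, one_mul]
    set y : ℝ := (p : ℝ) ^ t with hy
    have hy0 : 0 < y := by linarith
    have h6 : (1 - y⁻¹)⁻¹ = y / (y - 1) := by
      field_simp
    rw [h6, div_le_iff₀ (by linarith)]
    nlinarith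

/-- (SUN) integers composed of few primes. -/
theorem pf_SUN : T_SUN := by
  intro ε hε
  set t : ℝ := ε / 2 with ht
  have ht0 : 0 < t := by positivity
  set N : ℕ := ⌈(2 : ℝ) ^ (1 / t)⌉₊ with hN
  set A : ℝ := (1 - (2 : ℝ) ^ (-t))⁻¹ with hA
  have h2t : (2 : ℝ) ^ (-t) < 1 :=
    Real.rpow_lt_one_of_one_lt_of_neg (by norm_num) (by linarith)
  have h2t0 : 0 < (2 : ℝ) ^ (-t) := Real.rpow_pos_of_pos (by norm_num) _
  have hA1 : 1 ≤ A := (one_le_inv₀ (by linarith)).mpr (by linarith)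
  refine ⟨A ^ N, by positivity, ?_⟩
  intro Z Q hZ hQ hQZ S hS
  have hZ0 : 0 < Z := by linarith
  have hQ0 : (1 : ℝ) ≤ Q := by exact_mod_cast hQ
  have hlt : ∀ {p : ℕ}, p.Prime → ‖sunF t ht0 p‖ < 1 := by
    intro p hp
    rw [sunF_apply, Real.norm_eq_abs, abs_of_nonneg (by positivity)]
    exact Real.rpow_lt_one_of_one_lt_of_neg (by exact_mod_cast hp.one_lt) (by linarith)
  obtain ⟨-, hsum⟩ :=
    EulerProduct.summable_and_hasSum_factoredNumbers_prod_filter_prime_geometric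
    (f := sunF t ht0) (fun {p} hp => hlt hp) Q.primeFactors
  -- the finite sum is at most the product
  have hmem : ∀ m ∈ S, m ∈ Nat.factoredNumbers Q.primeFactors := by
    intro m hm
    obtain ⟨h1, -, h3⟩ := hS m hm
    rw [Nat.mem_factoredNumbers]
    refine ⟨by omega, fun p hp => ?_⟩
    have hp1 := Nat.prime_of_mem_primeFactorsList hp
    have hp2 := Nat.dvd_of_mem_primeFactorsList hp
    exact Nat.mem_primeFactors.mpr ⟨hp1, h3 p hp1 hp2, by omega⟩
  have hfin : ∑ m ∈ S, (m : ℝ) ^ (-t) ≤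
      ∏ p ∈ Q.primeFactors with p.Prime, (1 - (p : ℝ) ^ (-t))⁻¹ := by
    have h1 : ∑ m ∈ S.attach, (sunF t ht0) ((⟨m.1, hmem m.1 m.2⟩ :
        Nat.factoredNumbers Q.primeFactors) : ℕ) ≤
        ∏ p ∈ Q.primeFactors with p.Prime, (1 - sunF t ht0 p)⁻¹ := by
      have h2 := sum_le_hasSum (S.attach.map ⟨fun m => (⟨m.1, hmem m.1 m.2⟩ :
        Nat.factoredNumbers Q.primeFactors), fun a b h => by
          apply Subtype.ext
          exact congrArg (fun x : Nat.factoredNumbers Q.primeFactors => (x : ℕ)) h⟩)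
        (fun i _ => by rw [sunF_apply]; positivity) hsum
      rw [Finset.sum_map] at h2
      exact h2
    have h3 : ∑ m ∈ S.attach, (sunF t ht0) ((⟨m.1, hmem m.1 m.2⟩ :
        Nat.factoredNumbers Q.primeFactors) : ℕ) = ∑ m ∈ S, (m : ℝ) ^ (-t) := by
      rw [← Finset.sum_attach S]
      exact Finset.sum_congr rfl fun m _ => rfl
    rw [h3] at h1
    exact h1
  have hfilt : (Q.primeFactors.filter fun p => p.Prime) = Q.primeFactors :=
    Finset.filter_true_of_mem fun p hp => Nat.prime_of_mem_primeFactors hp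
  rw [hfilt] at hfin
  -- the product is small
  have hprod : ∏ p ∈ Q.primeFactors, (1 - (p : ℝ) ^ (-t))⁻¹ ≤ A ^ N * (Q : ℝ) ^ t := by
    calc ∏ p ∈ Q.primeFactors, (1 - (p : ℝ) ^ (-t))⁻¹
        ≤ ∏ p ∈ Q.primeFactors, ((if p < N then A else 1) * (p : ℝ) ^ t) := by
          refine Finset.prod_le_prod (fun p hp => ?_) fun p hp =>
            sun_factor t ht0 p (Nat.prime_of_mem_primeFactors hp)
          have hp1 := (Nat.prime_of_mem_primeFactors hp)
          have : (p : ℝ) ^ (-t) < 1 :=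
            Real.rpow_lt_one_of_one_lt_of_neg (by exact_mod_cast hp1.one_lt) (by linarith)
          exact inv_nonneg.mpr (by linarith)
      _ = (∏ p ∈ Q.primeFactors, (if p < N then A else 1)) *
            ∏ p ∈ Q.primeFactors, (p : ℝ) ^ t := Finset.prod_mul_distrib
      _ ≤ A ^ N * (Q : ℝ) ^ t := by
          refine mul_le_mul ?_ ?_ (Finset.prod_nonneg fun p _ => by positivity) (by positivity)
          · rw [Finset.prod_ite, Finset.prod_const, Finset.prod_const_one, mul_one]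
            refine pow_le_pow_right₀ hA1 ?_
            calc (Q.primeFactors.filter fun p => p < N).card ≤ (Finset.range N).card :=
                  Finset.card_le_card fun p hp => by
                    rw [Finset.mem_filter] at hp
                    exact Finset.mem_range.mpr hp.2
              _ = N := Finset.card_range N
          · rw [Real.finsetProd_rpow _ _ fun p _ => Nat.cast_nonneg p]
            refine Real.rpow_le_rpow (Finset.prod_nonneg fun p _ => Nat.cast_nonneg p) ?_ ht0.le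
            have h1 := Nat.le_of_dvd (by omega) (Nat.prod_primeFactors_dvd Q)
            have h2 : ((∏ p ∈ Q.primeFactors, p : ℕ) : ℝ) ≤ Q := by exact_mod_cast h1
            rw [Nat.cast_prod] at h2
            exact h2
  -- Rankin
  have hR : (S.card : ℝ) * Z ^ (-t) ≤ ∑ m ∈ S, (m : ℝ) ^ (-t) := by
    rw [← nsmul_eq_mul, ← Finset.sum_const]
    refine Finset.sum_le_sum fun m hm => ?_
    obtain ⟨h1, h2, -⟩ := hS m hm
    have h3 : (0 : ℝ) < m := by exact_mod_cast h1
    exact Real.rpow_le_rpow_of_nonpos h3 h2 (by linarith)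
  have hQt : (Q : ℝ) ^ t ≤ Z ^ t := Real.rpow_le_rpow (by linarith) hQZ ht0.le
  have hfinal : (S.card : ℝ) * Z ^ (-t) ≤ A ^ N * Z ^ t :=
    (hR.trans (hfin.trans hprod)).trans (mul_le_mul_of_nonneg_left hQt (by positivity))
  have hZt : Z ^ (-t) * Z ^ t = 1 := by
    rw [← Real.rpow_add hZ0, neg_add_cancel, Real.rpow_zero]
  have hZt0 : 0 < Z ^ t := Real.rpow_pos_of_pos hZ0 _
  calc (S.card : ℝ) = (S.card : ℝ) * Z ^ (-t) * Z ^ t := by rw [mul_assoc, hZt, mul_one]
    _ ≤ A ^ N * Z ^ t * Z ^ t := mul_le_mul_of_nonneg_right hfinal hZt0.le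
    _ = A ^ N * Z ^ ε := by
        rw [mul_assoc, ← Real.rpow_add hZ0]
        congr 2
        rw [ht]
        ring

end Pool.Agent.H57.TFX
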